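import Pool.Agent.Helper26.DA.Goals

/-!
# NAK: nonvanishing of the degree zero homology modulo the maximal ideal (project DA)
-/

set_option autoImplicit false

namespace Pool.Agent.Helper89.DA

open IsLocalRing Pool.Agent.Helper26.DA

universe u v

lemma sum_single_smul {A : Type u} [CommRing A] {n : ℕ} (z : Fin n → A) :
    z = ∑ j, z j • (Pi.single j 1 : Fin n → A) := by
  funext i
  rw [Finset.sum_apply, Finset.sum_eq_single i]
  · simp
  · intro j _ hj
    rw [Pi.smul_apply, Pi.single_eq_of_ne (Ne.symm hj), smul_zero]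
  · intro h
    exact absurd (Finset.mem_univ i) h

lemma mS_le (A : Type u) [CommRing A] [IsLocalRing A] (n : ℕ) :
    mS A n ≤ maximalIdeal A • (⊤ : Submodule A (Fin n → A)) := by
  intro z hz
  rw [sum_single_smul z]
  exact Submodule.sum_mem _ fun j _ => Submodule.smul_mem_smul (hz j) Submodule.mem_top

theorem gNAK : G_NAK.{u, v} := by
  classical
  intro hB A _ _ B _ _ _ F act e a ha M hd
  obtain ⟨-, -, -, -, -, h6, -⟩ := hB A F e a ha
  have hBd : Bd F 0 ≠ ⊤ := by
    intro h
    apply hd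
    rw [eq_top_iff]
    refine Submodule.le_of_le_smul_of_le_jacobson_bot (I := maximalIdeal A)
      (N := LinearMap.range (F.d 0)) (N' := ⊤) (Module.Finite.fg_top)
      (IsLocalRing.maximalIdeal_le_jacobson _) ?_
    rw [← h]
    unfold Bd
    refine sup_le le_sup_left ((mS_le A _).trans ?_)
    have h2 : LinearMap.range (F.d 0) ⊔ mS A (F.r 0) = ⊤ := h
    rw [h2]
    exact le_sup_right
  obtain ⟨z, hz⟩ : ∃ z : Fin (F.r 0) → A, z ∉ Bd F 0 := by
    by_contra hno
    push Not at hno
    exact hBd (eq_top_iff.2 fun z _ => hno z)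
  have htop : ∀ w : Fin (F.r 0) → A, w ∈ Zc F 0 := fun w => Submodule.mem_top
  -- scalars of the base ring
  have hsc : ∀ (x : A) (w : Fin (F.r 0) → A),
      algebraMap A B x • M.π 0 ⟨w, htop w⟩ = M.π 0 ⟨x • w, htop _⟩ := by
    intro x w
    rw [M.smul 0 (algebraMap A B x) ⟨w, htop w⟩ ⟨act.ρ (algebraMap A B x) 0 w, htop _⟩ rfl]
    rw [← sub_eq_zero, ← map_sub, M.ker]
    have h := h6 _ _ (act.alg x) 0 w (htop w)
    exact h
  have hne : M.π 0 ⟨z, htop z⟩ ≠ 0 := by
    intro h
    exact hz ((M.ker 0 ⟨z, htop z⟩).1 h)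
  refine ⟨?_, ?_⟩
  · intro x hx
    rw [mem_maximalIdeal, mem_nonunits_iff]
    intro hu
    apply hne
    have h1 : algebraMap A B x • M.π 0 ⟨z, htop z⟩ = 0 := by
      rw [hsc, M.ker]
      exact Submodule.mem_sup_right fun j => Ideal.mul_mem_right _ _ hx
    obtain ⟨u, hu⟩ := hu
    rw [← hu] at h1
    have h2 := congrArg (fun t => (↑u⁻¹ : B) • t) h1
    simpa [smul_smul] using h2
  · by_contra hno
    push Not at hno
    have hfg : (⊤ : Submodule B (M.V 0)).FG := by
      refine ⟨Finset.univ.image fun j : Fin (F.r 0) => M.π 0 ⟨Pi.single j 1, htop _⟩, ?_⟩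
      rw [eq_top_iff]
      intro v _
      obtain ⟨⟨w, hw⟩, rfl⟩ := M.surj 0 v
      have h1 : (⟨w, hw⟩ : Zc F 0) = ∑ j, ⟨w j • (Pi.single j 1 : Fin (F.r 0) → A), htop _⟩ := by
        apply Subtype.ext
        rw [AddSubmonoidClass.coe_finsetSum]
        exact sum_single_smul w
      rw [h1, map_sum]
      refine Submodule.sum_mem _ fun j _ => ?_
      rw [← hsc]
      refine Submodule.smul_mem _ _ (Submodule.subset_span ?_)
      simp
    have h := Submodule.eq_bot_of_le_smul_of_le_jacobson_bot (maximalIdeal B)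
      (⊤ : Submodule B (M.V 0)) hfg (fun v _ => hno v) (IsLocalRing.maximalIdeal_le_jacobson _)
    apply hne
    have : M.π 0 ⟨z, htop z⟩ ∈ (⊤ : Submodule B (M.V 0)) := Submodule.mem_top
    rw [h] at this
    exact this

end Pool.Agent.Helper89.DA
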